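import Pool.Agent.H68.GHK.Targets

/-!
Row KAP of the board ghk: densities near the orthogonal group.
-/

set_option autoImplicit false

namespace Pool.Agent.H94.GHK

open MeasureTheory Pool.Agent.H34.GM Pool.Agent.H34.GZ Pool.Agent.H34.GU Pool.Agent.H34.GA
open Pool.Agent.H68.GHK

/-- the density before normalization -/
noncomputable def k0 (m : ℕ) (w : Mat m) : ℝ :=
  max 0 (1 / (4 * m) - sz (w.transpose * w - 1))

theorem k0_cont (m : ℕ) : Continuous (fun w : V m => k0 m (mt w)) := by
  unfold k0 sz
  refine continuous_const.max (continuous_const.sub (continuous_norm.comp ?_))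
  refine continuous_pi fun i => continuous_pi fun j => ?_
  have : (fun w : V m => ((mt w).transpose * mt w - 1) i j) =
      fun w : V m => (∑ k, w k i * w k j) - (1 : Mat m) i j := by
    funext w
    rw [Matrix.sub_apply, Matrix.mul_apply]
    rfl
  rw [this]
  fun_prop

theorem k0_supp {m : ℕ} {w : Mat m} (h : k0 m w ≠ 0) :
    sz (w.transpose * w - 1) < 1 / (4 * m) := by
  by_contra h1
  apply h
  unfold k0
  exact max_eq_left (by linarith [not_lt.1 h1])

theorem k0_bdd {m : ℕ} (hm : 1 ≤ m) {w : V m} (h : k0 m (mt w) ≠ 0) : ‖w‖ ≤ 2 := by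
  have hm' : (1 : ℝ) ≤ m := by exact_mod_cast hm
  have h1 := k0_supp h
  have h2 : (1 : ℝ) / (4 * m) ≤ 1 := by
    rw [div_le_one (by positivity)]
    linarith
  refine (pi_norm_le_iff_of_nonneg (by norm_num)).2 fun i =>
    (pi_norm_le_iff_of_nonneg (by norm_num)).2 fun j => ?_
  have h3 : |((mt w).transpose * mt w - 1) j j| ≤ sz ((mt w).transpose * mt w - 1) := by
    have e1 := norm_le_pi_norm ((fun i j => ((mt w).transpose * mt w - 1) i j) : V m) j
    have e2 := norm_le_pi_norm (((fun i j => ((mt w).transpose * mt w - 1) i j) : V m) j) j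
    exact e2.trans e1
  have h4 : ((mt w).transpose * mt w - 1) j j = (∑ k, w k j * w k j) - 1 := by
    rw [Matrix.sub_apply, Matrix.mul_apply, Matrix.one_apply_eq]
    rfl
  have h5 : w i j * w i j ≤ ∑ k, w k j * w k j :=
    Finset.single_le_sum (f := fun k => w k j * w k j) (fun k _ => mul_self_nonneg _)
      (Finset.mem_univ i)
  have h6 : (∑ k, w k j * w k j) ≤ 2 := by
    rw [h4] at h3
    have := (abs_le.1 h3).2
    linarith
  rw [Real.norm_eq_abs]
  apply abs_le_of_sq_le_sq
  · nlinarith
  · norm_num

theorem k0_comp {m : ℕ} (hm : 1 ≤ m) : HasCompactSupport (fun w : V m => k0 m (mt w)) := by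
  refine HasCompactSupport.intro (isCompact_closedBall (0 : V m) 2) fun w hw => ?_
  by_contra h
  apply hw
  rw [Metric.mem_closedBall, dist_zero_right]
  exact k0_bdd hm h

theorem pf_KAP : T_KAP := by
  intro m hm
  have hm' : (1 : ℝ) ≤ m := by exact_mod_cast hm
  have hpos : 0 < ∫ w : V m, k0 m (mt w) := by
    refine (k0_cont m).integral_pos_of_hasCompactSupport_nonneg_nonzero (k0_comp hm)
      (fun w => le_max_left _ _) (x := ((fun i j => (1 : Mat m) i j) : V m)) ?_
    have : k0 m (mt ((fun i j => (1 : Mat m) i j) : V m)) = 1 / (4 * m) := by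
      have h1 : mt ((fun i j => (1 : Mat m) i j) : V m) = (1 : Mat m) := rfl
      rw [h1]
      unfold k0 sz
      rw [Matrix.transpose_one, mul_one, sub_self]
      have h2 : ‖((fun i j => (0 : Mat m) i j) : V m)‖ = 0 := by
        have : ((fun i j => (0 : Mat m) i j) : V m) = 0 := rfl
        rw [this, norm_zero]
      rw [h2, sub_zero]
      exact max_eq_right (by positivity)
    show k0 m (mt ((fun i j => (1 : Mat m) i j) : V m)) ≠ 0
    rw [this]
    positivity
  refine ⟨fun w => k0 m w / ∫ w : V m, k0 m (mt w), ?_, ?_, ?_, ?_, ?_⟩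
  · exact (k0_cont m).div_const _
  · intro w
    exact div_nonneg (le_max_left _ _) hpos.le
  · intro k hk w
    have hk' : k.transpose * k = 1 := mul_eq_one_comm.1 hk
    have : (k * w).transpose * (k * w) = w.transpose * w := by
      rw [Matrix.transpose_mul, Matrix.mul_assoc, ← Matrix.mul_assoc k.transpose k w, hk',
        Matrix.one_mul]
    simp only [k0, this]
  · intro w hw
    refine (k0_supp (m := m) (w := w) fun h => hw ?_).le
    show k0 m w / _ = 0
    rw [h, zero_div]
  · rw [integral_div, div_self hpos.ne']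

end Pool.Agent.H94.GHK
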